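import Mathlib
import Pool.Agent.Q18.HQ.Stmts

set_option autoImplicit false

namespace Pool.Agent.Q64.HQ.O1a

def S : Finset (ZMod 64) := {0, 1, 4, 9, 16, 17, 25, 33, 36, 41, 49, 57}

theorem sq_mem : ∀ N : ZMod 64, N ^ 2 ∈ S := by decide +kernel

theorem c1 : ∀ M e : ZMod 64, (M.val % 2 = 1 ∨ e.val % 2 = 1) →
    2 * M ^ 4 + (-72579) * M ^ 2 * e ^ 2 + 562500000 * e ^ 4 ∉ S := by decide +kernel

theorem c2 : ∀ M e : ZMod 64, (M.val % 2 = 1 ∨ e.val % 2 = 1) →
    10 * M ^ 4 + (-72579) * M ^ 2 * e ^ 2 + 112500000 * e ^ 4 ∉ S := by decide +kernel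

theorem odd_val (x : ℤ) (hx : ¬ (2 : ℤ) ∣ x) : (x : ZMod 64).val % 2 = 1 := by
  have h := ZMod.val_intCast (n := 64) x
  omega

theorem cop (M e : ℤ) (h : IsCoprime M e) :
    (M : ZMod 64).val % 2 = 1 ∨ (e : ZMod 64).val % 2 = 1 := by
  by_cases h1 : (2 : ℤ) ∣ M
  · right
    apply odd_val
    intro h2
    have := h.isUnit_of_dvd' h1 h2
    exact absurd this (by decide)
  · left
    exact odd_val _ h1

theorem main : Pool.Agent.Q18.HQ.TaskO1a := by
  constructor
  · intro M e N h hN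
    have h1 := c1 M e (cop M e h)
    apply h1
    have h2 := congrArg (Int.cast : ℤ → ZMod 64) hN
    push_cast at h2
    rw [← h2]
    exact sq_mem _
  · intro M e N h hN
    have h1 := c2 M e (cop M e h)
    apply h1
    have h2 := congrArg (Int.cast : ℤ → ZMod 64) hN
    push_cast at h2
    rw [← h2]
    exact sq_mem _

end Pool.Agent.Q64.HQ.O1a
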